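import Pool.Agent.Run7.h821.Bir

/-!
# Property `(N_p)` by means of an auxiliary birational line bundle

The curve `X` is given by its function field `K`, a line bundle by its local generators
(`LineBundle`), and a section of it is an element of `K` which lies in all stalks (`H0`).
-/

open scoped WithZero
open Pool.Agent.Helper395.CS hiding genus map_mul map_inv
open Pool.Agent.Helper395.BC

namespace Pool.Agent.Results.MP_69b6d0_ag.BirationalAuxiliary

variable {K : Type} [Field K] [Algebra ℂ K]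

/-- `h⁰(L)`. -/
noncomputable def h0 (L : LineBundle K) : ℕ := Module.finrank ℂ (H0 L)

/-- `h¹(L)`, which is `h⁰(L) - deg L - 1 + g` by the theorem of Riemann and Roch. -/
noncomputable def h1 (L : LineBundle K) : ℤ := h0 L - L.degree - 1 + genus K

/-- `L` is generated by its global sections. -/
def GloballyGenerated (L : LineBundle K) : Prop :=
  ∀ v : Point K, ∃ s ∈ H0 L, v.val s = v.val (L.frame v : K)

/-- The rational map to a projective space defined by the sections of `M` is birational onto its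
image: the quotients of sections of `M` generate the function field. -/
def Birational (M : LineBundle K) : Prop :=
  IntermediateField.adjoin ℂ {h : K | ∃ s ∈ H0 M, ∃ t ∈ H0 M, t ≠ 0 ∧ h = s / t} = ⊤

/-- `L ^ j`. -/
def pow (L : LineBundle K) (j : ℕ) : LineBundle K where
  frame v := L.frame v ^ j
  finite := by
    refine L.finite.subset fun v hv h => hv ?_
    rw [Units.val_pow_eq_pow_val, map_pow, h, one_pow]

/-- The Koszul differential `∑ k, b_k ⌟ ⊗ b_k` on the alternating `i + 1` forms on `H⁰(L)ᵛ` with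
values in `K`, that is on `Λ^(i + 1) H⁰(L) ⊗ K`, for a basis `b` of `H⁰(L)`. -/
noncomputable def koszul {L : LineBundle K} {n : ℕ} (b : Module.Basis (Fin n) ℂ (H0 L)) {i : ℕ}
    (c : Module.Dual ℂ (H0 L) [⋀^Fin (i + 1)]→ₗ[ℂ] K) (φ : Fin i → Module.Dual ℂ (H0 L)) : K :=
  ∑ k, (b k : K) * c (Matrix.vecCons (b.coord k) φ)

/-- The cycles of the Koszul complex (every `0` form is a cycle). -/
def IsCycle {L : LineBundle K} {n : ℕ} (b : Module.Basis (Fin n) ℂ (H0 L)) :
    ∀ {i : ℕ}, (Module.Dual ℂ (H0 L) [⋀^Fin i]→ₗ[ℂ] K) → Prop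
  | 0, _ => True
  | _ + 1, c => ∀ φ, koszul b c φ = 0

/-- Property `(N_p)`: the Koszul cohomology `K_{i, j}(X, L)`, the middle homology of
`Λ^(i + 1) H⁰(L) ⊗ H⁰(L ^ (j - 1)) → Λ^i H⁰(L) ⊗ H⁰(L ^ j) → Λ^(i - 1) H⁰(L) ⊗ H⁰(L ^ (j + 1))`,
vanishes for all `i ≤ p` and all `j ≥ 2`. -/
def PropertyN (L : LineBundle K) (p : ℕ) : Prop :=
  ∃ (n : ℕ) (b : Module.Basis (Fin n) ℂ (H0 L)), ∀ i ≤ p, ∀ j ≥ 2,
    ∀ c : Module.Dual ℂ (H0 L) [⋀^Fin i]→ₗ[ℂ] K, (∀ φ, c φ ∈ H0 (pow L j)) → IsCycle b c →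
      ∃ e : Module.Dual ℂ (H0 L) [⋀^Fin (i + 1)]→ₗ[ℂ] K, (∀ φ, e φ ∈ H0 (pow L (j - 1))) ∧
        ∀ φ, koszul b e φ = c φ

/-- **Theorem.** Let `X` be a smooth projective curve of genus `g ≥ 1`, `L` a globally generated
line bundle with `h¹(L) = 0`, and `M` a globally generated line bundle which defines a birational
map. If `deg L ≥ 2g + 1 + p - h¹(M) + h⁰(L ⊗ M⁻¹)` then `L` has the property `(N_p)`. -/
theorem result (hK : IsCurve K) (hg : 1 ≤ genus K) (L M : LineBundle K) (p : ℕ)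
    (hL : GloballyGenerated L) (hL1 : h1 L = 0) (hM : GloballyGenerated M) (hM' : Birational M)
    (hdeg : 2 * (genus K : ℤ) + 1 + p - h1 M + h0 (lmul L (linv M)) ≤ L.degree) :
    PropertyN L p := by
  have hg' : genus K ≠ 0 := by omega
  obtain ⟨hf0, hf1, hχ⟩ := lHasChi hK hg' L
  have hL1' : Om1 L = ⊥ := by
    apply Submodule.finrank_eq_zero.1
    rw [h1, h0] at hL1
    omega
  have hM1 : h1 M = Module.finrank ℂ (Om1 M) := by
    have h2 := (lHasChi hK hg' M).2.2
    rw [h1, h0]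
    omega
  rw [hM1] at hdeg
  -- general position
  have hGP : Run7.h821.GP 2 M := by
    refine ⟨hM, ?_⟩
    obtain ⟨v⟩ := point_nonempty hK
    obtain ⟨s₁, hs₁, hs₁v⟩ := hM v
    have hs₁0 : s₁ ≠ 0 := Run7.h821.ne_of_gen hs₁v
    have hadj : IntermediateField.adjoin ℂ {h : K | h * s₁ ∈ H0 M} = ⊤ := by
      rw [eq_top_iff, ← hM', IntermediateField.adjoin_le_iff]
      rintro h ⟨s, hs, t, ht, ht0, rfl⟩
      have key : ∀ f ∈ H0 M, f / s₁ ∈ IntermediateField.adjoin ℂ {h : K | h * s₁ ∈ H0 M} := by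
        intro f hf
        apply IntermediateField.subset_adjoin
        change f / s₁ * s₁ ∈ H0 M
        rw [div_mul_cancel₀ _ hs₁0]
        exact hf
      have h1 : s / t = (s / s₁) / (t / s₁) := by field_simp
      rw [h1]
      exact div_mem (key s hs) (key t ht)
    obtain ⟨s₀, hs₀, ht⟩ : ∃ s₀ ∈ H0 M, Transcendental ℂ (s₀ / s₁) := by
      by_contra hcon
      push Not at hcon
      obtain ⟨t, ht⟩ := exists_transc hK
      apply ht
      have h1 : t ∈ IntermediateField.adjoin ℂ {h : K | h * s₁ ∈ H0 M} := by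
        rw [hadj]; trivial
      have h2 : IntermediateField.adjoin ℂ {h : K | h * s₁ ∈ H0 M} ≤ ⊥ := by
        rw [IntermediateField.adjoin_le_iff]
        intro h hh
        have hh' : h * s₁ ∈ H0 M := hh
        obtain ⟨c, hc⟩ := exists_const (hcon _ hh')
        rw [mul_div_cancel_right₀ _ hs₁0] at hc
        exact ⟨c, hc.symm⟩
      obtain ⟨c, rfl⟩ := h2 h1
      exact isAlgebraic_algebraMap c
    exact Run7.h821.gg_general hK hg' hM hs₁ hs₁0 hs₀ ht hadj
  have hlgp := Run7.h821.lgp_of_two hK hg' hGP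
  refine ⟨_, Module.finBasis ℂ (H0 L), fun i hi j hj c hc hcyc => ?_⟩
  obtain ⟨j, rfl⟩ : ∃ j', j = j' + 2 := ⟨j - 2, by omega⟩
  have hcyc' : Run7.h821.Cyc L c := by
    match i, c, hcyc with
    | 0, _, _ => trivial
    | i + 1, c, hcyc =>
      change Run7.h821.dd (Run7.h821.muK L) c = 0
      ext φ
      rw [Run7.h821.dd_apply]
      exact hcyc φ
  obtain ⟨e, he, hde⟩ := Run7.h821.np hK hg' hL1' hL hlgp (p := p) hdeg hi c hcyc' hc
  refine ⟨e, he, fun φ => ?_⟩
  rw [← hde, Run7.h821.dd_apply]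
  rfl

end Pool.Agent.Results.MP_69b6d0_ag.BirationalAuxiliary
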